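import Pool.Agent.Q312.Mak.Strong

/-!
# MP_b8bcd1_lc, Q2: strengthened parity gives fewer directly acceptable formulae

The truth-trees with parity are defined in `Pool/Agent/Q312/Mak/Basic.lean`.
-/

namespace Pool.Agent.Results.MP_b8bcd1_lc.DirectStrengthened

open Pool.Agent.Q312.Mak Form

/-- **Theorem.** The formula
`¬(¬((x ∨ y) → b) ∧ (y → b) ∧ ¬((z ∨ w) → d) ∧ (w → d) ∧ (x → (z → (¬b → d))))` is directly
acceptable, but it has no truth-tree (without recursive rule) satisfying strengthened parity. -/
theorem result :
    DA (neg (and (neg (imp (or (letter 0) (letter 1)) (letter 2)))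
      (and (imp (letter 1) (letter 2))
        (and (neg (imp (or (letter 3) (letter 4)) (letter 5)))
          (and (imp (letter 4) (letter 5))
            (imp (letter 0) (imp (letter 3) (imp (neg (letter 2)) (letter 5))))))))) ∧
    ¬ DAs (neg (and (neg (imp (or (letter 0) (letter 1)) (letter 2)))
      (and (imp (letter 1) (letter 2))
        (and (neg (imp (or (letter 3) (letter 4)) (letter 5)))
          (and (imp (letter 4) (letter 5))
            (imp (letter 0) (imp (letter 3) (imp (neg (letter 2)) (letter 5))))))))) :=
  ⟨Strong.da_phi, Strong.not_das_phi⟩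

end Pool.Agent.Results.MP_b8bcd1_lc.DirectStrengthened
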